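import Pool.Agent.AFJ.Stmts

/-!
# Squad AFJ, row BGJ (helper6): the resolvent of a block update
-/

set_option autoImplicit false

open scoped BigOperators Matrix

noncomputable section

namespace Pool.Agent.AFJ.H6

open Pool.Agent.LE.QF

section mat

variable {X : Type} [Fintype X] [DecidableEq X]

/-- the matrix `H + diag p` -/
def Mt (H : Matrix X X ℝ) (p : X → ℂ) : Matrix X X ℂ :=
  H.map (fun a => (a : ℂ)) + Matrix.diagonal p

omit [Fintype X] in
theorem mt_apply (H : Matrix X X ℝ) (p : X → ℂ) (x y : X) :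
    Mt H p x y = (H x y : ℂ) + if x = y then p x else 0 := by
  unfold Mt
  rw [Matrix.add_apply, Matrix.map_apply, Matrix.diagonal_apply]

theorem mt_im {H : Matrix X X ℝ} (hH : ∀ x y, H x y = H y x) {p : X → ℂ} {k : X → ℝ}
    (hp : ∀ x, (p x).im = -k x) (u : X → ℂ) :
    (∑ x, (starRingEnd ℂ) (u x) * (Mt H p *ᵥ u) x).im = -∑ x, k x * ‖u x‖ ^ 2 := by
  have h1 : ∀ x, (Mt H p *ᵥ u) x = (∑ y, (H x y : ℂ) * u y) + p x * u x := by
    intro x
    rw [Matrix.mulVec, dotProduct]
    simp only [mt_apply, add_mul, ite_mul, zero_mul]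
    rw [Finset.sum_add_distrib, Finset.sum_ite_eq Finset.univ x]
    rw [if_pos (Finset.mem_univ x)]
  have h2 : ∑ x, (starRingEnd ℂ) (u x) * (Mt H p *ᵥ u) x =
      (∑ x, ∑ y, (starRingEnd ℂ) (u x) * ((H x y : ℂ) * u y)) +
        ∑ x, p x * ((‖u x‖ ^ 2 : ℝ) : ℂ) := by
    rw [← Finset.sum_add_distrib]
    refine Finset.sum_congr rfl fun x _ => ?_
    rw [h1, mul_add, Finset.mul_sum]
    congr 1
    have h3 : (starRingEnd ℂ) (u x) * u x = ((‖u x‖ ^ 2 : ℝ) : ℂ) := by
      rw [mul_comm, Complex.mul_conj, Complex.normSq_eq_norm_sq]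
    rw [← h3]
    ring
  have h4 : (∑ x, ∑ y, (starRingEnd ℂ) (u x) * ((H x y : ℂ) * u y)).im = 0 := by
    rw [← Complex.conj_eq_iff_im, map_sum]
    simp only [map_sum, map_mul, Complex.conj_conj, Complex.conj_ofReal]
    rw [Finset.sum_comm]
    refine Finset.sum_congr rfl fun x _ => Finset.sum_congr rfl fun y _ => ?_
    rw [hH y x]
    ring
  rw [h2, Complex.add_im, h4, zero_add, Complex.im_sum, ← Finset.sum_neg_distrib]
  refine Finset.sum_congr rfl fun x _ => ?_
  rw [Complex.mul_im, Complex.ofReal_re, Complex.ofReal_im, mul_zero, zero_add, hp]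
  ring

theorem mt_unit {H : Matrix X X ℝ} (hH : ∀ x y, H x y = H y x) {p : X → ℂ} {k : X → ℝ}
    (hp : ∀ x, (p x).im = -k x) (hk : ∀ x, 0 < k x) : IsUnit (Mt H p).det := by
  rw [isUnit_iff_ne_zero]
  intro h0
  obtain ⟨u, hu0, hu⟩ := Matrix.exists_mulVec_eq_zero_iff.2 h0
  have h1 := mt_im hH hp u
  rw [hu] at h1
  simp only [Pi.zero_apply, mul_zero, Finset.sum_const_zero, Complex.zero_im] at h1
  have h2 : ∑ x, k x * ‖u x‖ ^ 2 = 0 := by linarith
  apply hu0
  funext x
  have h3 := (Finset.sum_eq_zero_iff_of_nonneg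
    (fun x _ => mul_nonneg (hk x).le (sq_nonneg ‖u x‖))).1 h2 x (Finset.mem_univ x)
  rcases mul_eq_zero.1 h3 with h4 | h4
  · exact absurd h4 (hk x).ne'
  · exact norm_eq_zero.1 (pow_eq_zero_iff two_ne_zero |>.1 h4)

theorem mt_symm {H : Matrix X X ℝ} (hH : ∀ x y, H x y = H y x) (p : X → ℂ) (x y : X) :
    (Mt H p)⁻¹ x y = (Mt H p)⁻¹ y x := by
  have h1 : (Mt H p)ᵀ = Mt H p := by
    ext x y
    rw [Matrix.transpose_apply, mt_apply, mt_apply, hH y x]
    by_cases h : x = y
    · subst h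
      rfl
    · rw [if_neg h, if_neg (Ne.symm h)]
  have h2 : ((Mt H p)⁻¹)ᵀ = (Mt H p)⁻¹ := by
    rw [Matrix.transpose_nonsing_inv, h1]
  have h3 := congrFun (congrFun h2 y) x
  rw [Matrix.transpose_apply] at h3
  exact h3

theorem mt_net {H : Matrix X X ℝ} (hH : ∀ x y, H x y = H y x) {p : X → ℂ} {k : X → ℝ}
    (hp : ∀ x, (p x).im = -k x) (hk : ∀ x, 0 < k x) : Net (Mt H p)⁻¹ k := by
  have hu := mt_unit hH hp hk
  have hGM : (Mt H p)⁻¹ * Mt H p = 1 := Matrix.nonsing_inv_mul _ hu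
  have hMG : Mt H p * (Mt H p)⁻¹ = 1 := Matrix.mul_nonsing_inv _ hu
  refine ⟨mt_symm hH p, hk, ?_, ?_⟩
  · intro x z
    have h1 : (Mt H p)ᴴ - Mt H p = Matrix.diagonal (fun y => 2 * Complex.I * (k y : ℂ)) := by
      ext x y
      rw [Matrix.sub_apply, Matrix.conjTranspose_apply, mt_apply, mt_apply,
        Matrix.diagonal_apply]
      by_cases h : x = y
      · subst h
        rw [if_pos rfl, if_pos rfl]
        have h2 := Complex.sub_conj (p x)
        rw [hp x] at h2
        rw [show star ((H x x : ℂ) + p x) = (starRingEnd ℂ) ((H x x : ℂ) + p x) from rfl,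
          map_add, Complex.conj_ofReal]
        push_cast at h2
        linear_combination -h2
      · rw [if_neg h, if_neg (Ne.symm h), if_neg h, add_zero, add_zero, hH y x]
        rw [show star (H x y : ℂ) = (starRingEnd ℂ) (H x y : ℂ) from rfl, Complex.conj_ofReal,
          sub_self]
    have h3 : (Mt H p)⁻¹ - ((Mt H p)⁻¹)ᴴ =
        (Mt H p)⁻¹ * Matrix.diagonal (fun y => 2 * Complex.I * (k y : ℂ)) * ((Mt H p)⁻¹)ᴴ := by
      have h4 : (Mt H p)ᴴ * ((Mt H p)⁻¹)ᴴ = 1 := by
        rw [← Matrix.conjTranspose_mul, hGM, Matrix.conjTranspose_one]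
      rw [← h1, mul_sub, sub_mul, hGM, one_mul, mul_assoc, h4, mul_one]
    have h5 := congrFun (congrFun h3 x) z
    rw [Matrix.sub_apply, Matrix.conjTranspose_apply, Matrix.mul_apply] at h5
    simp only [Matrix.mul_diagonal, Matrix.conjTranspose_apply] at h5
    rw [mt_symm hH p z x] at h5
    have h6 := Complex.sub_conj ((Mt H p)⁻¹ x z)
    rw [show star ((Mt H p)⁻¹ x z) = (starRingEnd ℂ) ((Mt H p)⁻¹ x z) from rfl, h6] at h5
    have h7 : ∑ y, (Mt H p)⁻¹ x y * (2 * Complex.I * (k y : ℂ)) * star ((Mt H p)⁻¹ z y) =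
        2 * Complex.I * ∑ y, (k y : ℂ) * ((Mt H p)⁻¹ x y * (starRingEnd ℂ) ((Mt H p)⁻¹ z y)) := by
      rw [Finset.mul_sum]
      refine Finset.sum_congr rfl fun y _ => ?_
      rw [show star ((Mt H p)⁻¹ z y) = (starRingEnd ℂ) ((Mt H p)⁻¹ z y) from rfl]
      ring
    rw [h7] at h5
    have h8 : (2 * Complex.I : ℂ) ≠ 0 := mul_ne_zero two_ne_zero Complex.I_ne_zero
    apply mul_left_cancel₀ h8
    rw [← h5]
    push_cast
    ring
  · intro v
    set u : X → ℂ := fun x => ∑ y, (Mt H p)⁻¹ x y * ((k y : ℂ) * v y) with hudef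
    have h1 : Mt H p *ᵥ u = fun y => (k y : ℂ) * v y := by
      have h2 : u = (Mt H p)⁻¹ *ᵥ fun y => (k y : ℂ) * v y := rfl
      rw [h2, Matrix.mulVec_mulVec, hMG, Matrix.one_mulVec]
    have h3 := mt_im hH hp u
    rw [h1] at h3
    have h4 : ∑ x, k x * ‖u x‖ ^ 2 ≤ ∑ x, k x * (‖u x‖ * ‖v x‖) := by
      have h5 : ∑ x, k x * ‖u x‖ ^ 2 =
          -(∑ x, (starRingEnd ℂ) (u x) * ((k x : ℂ) * v x)).im := by
        rw [h3, neg_neg]
      rw [h5]
      calc -(∑ x, (starRingEnd ℂ) (u x) * ((k x : ℂ) * v x)).im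
          ≤ |(∑ x, (starRingEnd ℂ) (u x) * ((k x : ℂ) * v x)).im| := neg_le_abs _
        _ ≤ ‖∑ x, (starRingEnd ℂ) (u x) * ((k x : ℂ) * v x)‖ := Complex.abs_im_le_norm _
        _ ≤ ∑ x, ‖(starRingEnd ℂ) (u x) * ((k x : ℂ) * v x)‖ := norm_sum_le _ _
        _ = ∑ x, k x * (‖u x‖ * ‖v x‖) := by
            refine Finset.sum_congr rfl fun x _ => ?_
            rw [norm_mul, norm_mul, RCLike.norm_conj, Complex.norm_real, Real.norm_eq_abs,
              abs_of_pos (hk x)]
            ring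
    have h6 : ∑ x, k x * (‖u x‖ * ‖v x‖) ≤
        (1 / 2) * (∑ x, k x * ‖u x‖ ^ 2 + ∑ x, k x * ‖v x‖ ^ 2) := by
      rw [← Finset.sum_add_distrib, Finset.mul_sum]
      refine Finset.sum_le_sum fun x _ => ?_
      have h7 := mul_le_mul_of_nonneg_left (two_mul_le_add_sq ‖u x‖ ‖v x‖) (hk x).le
      nlinarith
    linarith

theorem gec (G : Matrix X X ℂ) (c : X) :
    -(G * (Matrix.diagonal fun a => if c = a then 1 else 0) * G) = gG G c := by
  ext a b
  unfold gG
  rw [Matrix.neg_apply, Matrix.mul_apply]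
  simp only [Matrix.mul_diagonal]
  rw [Finset.sum_eq_single c]
  · rw [if_pos rfl, mul_one]
  · intro y _ hy
    rw [if_neg (Ne.symm hy), mul_zero, zero_mul]
  · intro h
    exact absurd (Finset.mem_univ c) h

theorem gec2 (G : Matrix X X ℂ) (b : Finset X) (mb : X → ℂ) :
    -(G * (Matrix.diagonal fun a => if a ∈ b then mb a else 0) * G) +
      ∑ c : b, G * (Matrix.diagonal fun a => if (c : X) = a then 1 else 0) * G *
        (Matrix.diagonal fun a => if (c : X) = a then 1 else 0) * G = GD G (mub G mb b) := by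
  have h1 : ∀ c x y, (G * (Matrix.diagonal fun a => if c = a then (1 : ℂ) else 0) * G *
      (Matrix.diagonal fun a => if c = a then 1 else 0) * G : Matrix X X ℂ) x y =
      G x c * G c c * G c y := by
    intro c a b
    have h2 := gec G c
    have h3 : G * (Matrix.diagonal fun a => if c = a then (1 : ℂ) else 0) * G = -gG G c := by
      rw [← h2, neg_neg]
    rw [h3, Matrix.mul_apply]
    simp only [Matrix.mul_diagonal]
    rw [Finset.sum_eq_single c]
    · rw [if_pos rfl, mul_one, Matrix.neg_apply]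
      unfold gG
      rw [neg_neg]
    · intro y _ hy
      rw [if_neg (Ne.symm hy), mul_zero, zero_mul]
    · intro h
      exact absurd (Finset.mem_univ c) h
  ext x y
  rw [Matrix.add_apply, Matrix.neg_apply, Matrix.sum_apply]
  simp only [h1]
  have h4 : ∑ c ∈ b, G x c * G c c * G c y =
      ∑ c, if c ∈ b then G x c * G c c * G c y else 0 := by
    rw [Finset.sum_ite_mem, Finset.univ_inter]
  rw [Finset.sum_coe_sort b (fun c => G x c * G c c * G c y), h4]
  unfold GD
  rw [Matrix.mul_apply, Matrix.mul_apply]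
  simp only [Matrix.mul_diagonal]
  rw [← Finset.sum_neg_distrib, ← Finset.sum_add_distrib]
  refine Finset.sum_congr rfl fun c _ => ?_
  unfold mub
  by_cases hc : c ∈ b
  · rw [if_pos hc, if_pos hc, if_pos hc]
    ring
  · rw [if_neg hc, if_neg hc, if_neg hc]
    ring

end mat

variable {X : Type} [Fintype X] [DecidableEq X]

theorem kp_cd (D : Blk X) (t : ℝ) (x : X) : ContDiffAt ℝ 2 (fun t => D.kp t x) t := by
  unfold Blk.kp
  by_cases h : x ∈ D.b
  · simp only [if_pos h]
    exact contDiffAt_const.add ((contDiffAt_const.sub contDiffAt_id).mul contDiffAt_const)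
  · simp only [if_neg h]
    exact contDiffAt_const

theorem kp_dv (D : Blk X) (t : ℝ) (x : X) :
    deriv (fun t => D.kp t x) t = -(ind D.b x * (D.mb x).im) := by
  unfold Blk.kp ind
  by_cases h : x ∈ D.b
  · simp only [if_pos h]
    have h1 := (((hasDerivAt_id t).const_sub (D.s x)).mul_const (D.mb x).im).const_add D.η
    have h2 : deriv (fun t => D.η + (D.s x - t) * (D.mb x).im) t = _ := h1.deriv
    rw [h2]
    ring
  · simp only [if_neg h]
    rw [deriv_const, zero_mul, neg_zero]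

theorem pt_im (D : Blk X) (q : ℝ × (D.b → ℝ)) (x : X) : (D.pt q x).im = -D.kp q.1 x := by
  unfold Blk.pt Blk.kp
  by_cases h : x ∈ D.b
  · rw [dif_pos h, if_pos h]
    simp only [Complex.sub_im, Complex.add_im, Complex.ofReal_im, Complex.mul_im,
      Complex.ofReal_re, zero_mul, add_zero, zero_add]
    ring
  · rw [dif_neg h, if_neg h]
    simp only [Complex.sub_im, Complex.zero_im, Complex.mul_im,
      Complex.ofReal_re, Complex.ofReal_im, zero_mul, add_zero]
    ring

/-- the jet of `H + diag (pt)` -/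
theorem mtj (jal : JalStmt) (D : Blk X) (q : ℝ × (D.b → ℝ)) :
    HM (fun r => Mt D.H (D.pt r)) q (Mt D.H (D.pt q))
      (fun c : D.b => Matrix.diagonal fun a => if (c : X) = a then (1 : ℂ) else 0)
      (Matrix.diagonal fun a => if a ∈ D.b then D.mb a else 0) := by
  obtain ⟨J1, J2, J3, -, -, -, J7, -⟩ := jal D.b ℂ q
  intro x y
  by_cases hxy : x = y
  · subst hxy
    by_cases hx : x ∈ D.b
    · have e1 : (fun r : ℝ × (D.b → ℝ) => Mt D.H (D.pt r) x x) = fun r =>
          (((D.H x x : ℂ) - (D.s x : ℂ) * D.mb x - ⟨D.E, D.η⟩) + (((r.2 ⟨x, hx⟩ : ℝ) : ℂ) +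
            (r.1 : ℂ) * D.mb x)) := by
        funext r
        rw [mt_apply, if_pos rfl]
        unfold Blk.pt
        rw [dif_pos hx]
        ring
      have e2 : Mt D.H (D.pt q) x x =
          (((D.H x x : ℂ) - (D.s x : ℂ) * D.mb x - ⟨D.E, D.η⟩) + (((q.2 ⟨x, hx⟩ : ℝ) : ℂ) +
            (q.1 : ℂ) * D.mb x)) := congrFun e1 q
      have hcd : ContDiffAt ℝ 2 (fun t : ℝ => (t : ℂ) * D.mb x) q.1 :=
        (Complex.ofRealCLM.contDiff.contDiffAt (x := q.1)).mul contDiffAt_const
      have hdv : deriv (fun t : ℝ => (t : ℂ) * D.mb x) q.1 = D.mb x := by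
        have h1 : HasDerivAt (fun t : ℝ => (t : ℂ)) ((1 : ℝ) : ℂ) q.1 :=
          HasDerivAt.ofReal_comp (hasDerivAt_id q.1)
        have h2 := h1.mul_const (D.mb x)
        have h3 : deriv (fun t : ℝ => (t : ℂ) * D.mb x) q.1 = _ := h2.deriv
        rw [h3]
        push_cast
        ring
      have h2 := J2 ⟨x, hx⟩
      have h3 := J7 (fun t : ℝ => (t : ℂ) * D.mb x) hcd
      rw [hdv] at h3
      have h4 := (J3 _ _ _ _ _ _ _ _ (J1 ((D.H x x : ℂ) - (D.s x : ℂ) * D.mb x - ⟨D.E, D.η⟩))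
        (J3 _ _ _ _ _ _ _ _ h2 h3).1).1
      rw [e1, e2]
      simp only [Matrix.diagonal_apply_eq]
      have e3 : (fun c : D.b => (0 : ℂ) + ((if c = ⟨x, hx⟩ then 1 else 0) + 0)) =
          fun c : D.b => if (c : X) = x then 1 else 0 := by
        funext c
        rw [zero_add, add_zero]
        by_cases hc : (c : X) = x
        · rw [if_pos hc, if_pos (Subtype.ext hc)]
        · rw [if_neg hc, if_neg (fun h => hc (by rw [h]))]
      have e4 : (0 : ℂ) + (0 + D.mb x) = if x ∈ D.b then D.mb x else 0 := by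
        rw [zero_add, zero_add, if_pos hx]
      rw [e4] at h4
      rw [← e3]
      exact h4
    · have e1 : (fun r : ℝ × (D.b → ℝ) => Mt D.H (D.pt r) x x) = fun _ =>
          ((D.H x x : ℂ) + (0 - (D.s x : ℂ) * D.mb x - ⟨D.E, D.η⟩)) := by
        funext r
        rw [mt_apply, if_pos rfl]
        unfold Blk.pt
        rw [dif_neg hx]
      have e2 : Mt D.H (D.pt q) x x =
          ((D.H x x : ℂ) + (0 - (D.s x : ℂ) * D.mb x - ⟨D.E, D.η⟩)) := congrFun e1 q
      rw [e1, e2]
      simp only [Matrix.diagonal_apply_eq, if_neg hx]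
      have e3 : (fun c : D.b => if (c : X) = x then (1 : ℂ) else 0) = fun _ => 0 := by
        funext c
        rw [if_neg]
        intro h
        exact hx (h ▸ c.2)
      rw [e3]
      exact J1 _
  · have e1 : (fun r : ℝ × (D.b → ℝ) => Mt D.H (D.pt r) x y) = fun _ => (D.H x y : ℂ) := by
      funext r
      rw [mt_apply, if_neg hxy, add_zero]
    have e2 : Mt D.H (D.pt q) x y = (D.H x y : ℂ) := congrFun e1 q
    rw [e1, e2]
    simp only [Matrix.diagonal_apply_ne _ hxy]
    exact J1 _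

theorem bgj : BgjStmt := by
  intro jal jma X _ _ D q hH hk
  have hu := mt_unit hH (pt_im D q) hk
  refine ⟨⟨?_, ?_, ?_⟩, ?_⟩
  · have h1 := ((jma D.b ℂ q).2 X _ _ _ _ (mtj jal D q)).1 hu
    have e1 : (fun c : D.b => -((Mt D.H (D.pt q))⁻¹ *
        (Matrix.diagonal fun a => if (c : X) = a then 1 else 0) * (Mt D.H (D.pt q))⁻¹)) =
        fun c : D.b => gG (D.G q) (c : X) := by
      funext c
      exact gec _ _
    rw [e1, gec2] at h1
    exact h1
  · intro x y
    exact mt_symm hH _ x y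
  · intro x
    exact ⟨kp_cd D q.1 x, rfl, kp_dv D q.1 x⟩
  · exact mt_net hH (pt_im D q) hk

end Pool.Agent.AFJ.H6
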